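import Mathlib

set_option autoImplicit false

namespace Pool.Agent.Results.MP_b7335c_lc.TwoProbePowerSaving

open Finset

/-- Correctness of an adaptive two-probe scheme for subsets of size at most `n` of a universe `X`,
with table positions given by `A`, `B`, `C`. For every admissible set there is a filling of the
three tables such that every element is answered correctly. -/
def Correct {X α β γ : Type} (n : ℕ) (A : X → α) (B : X → β) (C : X → γ) : Prop :=
  ∀ S : Finset X, S.card ≤ n →
    ∃ (tA : α → Bool) (tB : β → Bool) (tC : γ → Bool),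
      ∀ x : X, (x ∈ S ↔ (if tA (A x) = false then tB (B x) else tC (C x)) = true)

/-- There is a correct adaptive two-probe scheme with exactly `s` bits in total for subsets of size
at most `n` of a universe with `m` elements. -/
def HasScheme (n m s : ℕ) : Prop :=
  ∃ sA sB sC : ℕ, sA + sB + sC = s ∧
    ∃ (A : Fin m → Fin sA) (B : Fin m → Fin sB) (C : Fin m → Fin sC), Correct n A B C

/-- The minimum space of a correct adaptive two-probe scheme. -/
noncomputable def minSpace (n m : ℕ) : ℕ := sInf {s | HasScheme n m s}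

/-- Transfer to a universe `Fin m` that embeds in `X`. -/
theorem transfer {X α β γ : Type} [Fintype α] [Fintype β] [Fintype γ] {n m : ℕ}
    {A : X → α} {B : X → β} {C : X → γ} (h : Correct n A B C) (f : Fin m → X)
    (hf : Function.Injective f) :
    HasScheme n m (Fintype.card α + Fintype.card β + Fintype.card γ) := by
  classical
  refine ⟨_, _, _, rfl, fun x => Fintype.equivFin α (A (f x)), fun x => Fintype.equivFin β (B (f x)),
    fun x => Fintype.equivFin γ (C (f x)), ?_⟩
  intro S hS
  obtain ⟨tA, tB, tC, ht⟩ := h (S.image f) (card_image_le.trans hS)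
  refine ⟨fun i => tA ((Fintype.equivFin α).symm i), fun i => tB ((Fintype.equivFin β).symm i),
    fun i => tC ((Fintype.equivFin γ).symm i), ?_⟩
  intro x
  have h1 := ht (f x)
  rw [Finset.mem_image] at h1
  simp only [Equiv.symm_apply_apply]
  rw [← h1]
  constructor
  · intro hx
    exact ⟨x, hx, rfl⟩
  · rintro ⟨y, hy, hyx⟩
    rwa [← hf hyx]

/-- Sanity check: some correct scheme exists for all parameters, so `minSpace` is attained. -/
theorem exists_scheme (n m : ℕ) : ∃ s, HasScheme n m s := by
  classical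
  refine ⟨_, transfer (X := Fin m) (α := Unit) (β := Fin m) (γ := Unit) (A := fun _ => ())
    (B := fun x => x) (C := fun _ => ()) ?_ (fun x => x) Function.injective_id⟩
  intro S _
  refine ⟨fun _ => false, fun x => decide (x ∈ S), fun _ => false, ?_⟩
  intro x
  simp

theorem minSpace_spec (n m : ℕ) : HasScheme n m (minSpace n m) :=
  Nat.sInf_mem (exists_scheme n m)

/-! ### Storing two elements -/

theorem correct_two {X α β γ : Type} (A : X → α) (B : X → β) (C : X → γ)
    (hB : ∀ x y, A x = A y → B x = B y → x = y)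
    (hC : ∀ x y, A x = A y → C x = C y → x = y)
    (h : ∀ x y, A x ≠ A y →
      ((∀ e, A e = A x → B e = B y → e = x) ∧ (∀ e, A e = A y → B e = B x → e = y)) ∨
      ((∀ e, A e = A x → C e = C y → e = x) ∧ (∀ e, A e = A y → C e = C x → e = y)) ∨
      (∀ e e', A e = A e' → A e ≠ A x → A e ≠ A y → B e = B x → C e' = C y → False) ∨
      (∀ e e', A e = A e' → A e ≠ A x → A e ≠ A y → C e = C x → B e' = B y → False)) :
    Correct 2 A B C := by
  classical
  -- two elements in the same block, or a single element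
  have same : ∀ x y : X, A x = A y → ∃ (tA : α → Bool) (tB : β → Bool) (tC : γ → Bool),
      ∀ e : X, ((e = x ∨ e = y) ↔ (if tA (A e) = false then tB (B e) else tC (C e)) = true) := by
    intro x y hxy
    refine ⟨fun a => decide (a ≠ A x), fun b => decide (b = B x ∨ b = B y), fun _ => false, ?_⟩
    intro e
    by_cases he : A e = A x
    · simp only [he, ne_eq, not_true_eq_false, decide_false, ↓reduceIte, decide_eq_true_eq]
      constructor
      · rintro (rfl | rfl)
        · exact Or.inl rfl
        · exact Or.inr rfl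
      · rintro (h1 | h1)
        · exact Or.inl (hB _ _ he h1)
        · exact Or.inr (hB _ _ (he.trans hxy) h1)
    · have h1 : ¬ (e = x ∨ e = y) := by
        rintro (rfl | rfl)
        · exact he rfl
        · exact he hxy.symm
      simp [he, h1]
  have two : ∀ x y : X, ∃ (tA : α → Bool) (tB : β → Bool) (tC : γ → Bool),
      ∀ e : X, ((e = x ∨ e = y) ↔ (if tA (A e) = false then tB (B e) else tC (C e)) = true) := by
    intro x y
    by_cases hxy : A x = A y
    · exact same x y hxy
    rcases h x y hxy with ⟨h1, h2⟩ | ⟨h1, h2⟩ | h1 | h1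
    · -- both in the table B
      refine ⟨fun a => decide (a ≠ A x ∧ a ≠ A y), fun b => decide (b = B x ∨ b = B y),
        fun _ => false, ?_⟩
      intro e
      by_cases hex : A e = A x
      · simp only [hex, ne_eq, not_true_eq_false, false_and, decide_false, ↓reduceIte,
          decide_eq_true_eq]
        constructor
        · rintro (rfl | rfl)
          · exact Or.inl rfl
          · exact Or.inr rfl
        · rintro (h3 | h3)
          · exact Or.inl (hB _ _ hex h3)
          · exact Or.inl (h1 e hex h3)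
      · by_cases hey : A e = A y
        · simp only [hey, ne_eq, not_true_eq_false, and_false, decide_false, ↓reduceIte,
            decide_eq_true_eq]
          constructor
          · rintro (rfl | rfl)
            · exact Or.inl rfl
            · exact Or.inr rfl
          · rintro (h3 | h3)
            · exact Or.inr (h2 e hey h3)
            · exact Or.inr (hB _ _ hey h3)
        · have h3 : ¬ (e = x ∨ e = y) := by
            rintro (rfl | rfl)
            · exact hex rfl
            · exact hey rfl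
          simp [hex, hey, h3]
    · -- both in the table C
      refine ⟨fun a => decide (a = A x ∨ a = A y), fun _ => false,
        fun c => decide (c = C x ∨ c = C y), ?_⟩
      intro e
      by_cases hex : A e = A x
      · have h4 : decide (A e = A x ∨ A e = A y) = true := by simp [hex]
        simp only [h4, Bool.true_eq_false, ↓reduceIte, decide_eq_true_eq]
        constructor
        · rintro (rfl | rfl)
          · exact Or.inl rfl
          · exact Or.inr rfl
        · rintro (h3 | h3)
          · exact Or.inl (hC _ _ hex h3)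
          · exact Or.inl (h1 e hex h3)
      · by_cases hey : A e = A y
        · have h4 : decide (A e = A x ∨ A e = A y) = true := by simp [hey]
          simp only [h4, Bool.true_eq_false, ↓reduceIte, decide_eq_true_eq]
          constructor
          · rintro (rfl | rfl)
            · exact Or.inl rfl
            · exact Or.inr rfl
          · rintro (h3 | h3)
            · exact Or.inr (h2 e hey h3)
            · exact Or.inr (hC _ _ hey h3)
        · have h3 : ¬ (e = x ∨ e = y) := by
            rintro (rfl | rfl)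
            · exact hex rfl
            · exact hey rfl
          simp [hex, hey, h3]
    · -- x in B, y in C
      refine ⟨fun a => decide (a ≠ A x ∧ (a = A y ∨ ∃ e, A e = a ∧ B e = B x)),
        fun b => decide (b = B x), fun c => decide (c = C y), ?_⟩
      intro e
      by_cases hex : A e = A x
      · have hne : A e ≠ A y := fun h5 => hxy (hex.symm.trans h5)
        have h4 : decide (A e ≠ A x ∧ (A e = A y ∨ ∃ e', A e' = A e ∧ B e' = B x)) = false := by
          simp [hex]
        simp only [h4, ↓reduceIte, decide_eq_true_eq]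
        constructor
        · rintro (rfl | rfl)
          · rfl
          · exact absurd rfl hne
        · intro h3
          exact Or.inl (hB _ _ hex h3)
      · by_cases hey : A e = A y
        · have h4 : decide (A e ≠ A x ∧ (A e = A y ∨ ∃ e', A e' = A e ∧ B e' = B x)) = true := by
            rw [decide_eq_true_eq]
            exact ⟨hex, Or.inl hey⟩
          simp only [h4, Bool.true_eq_false, ↓reduceIte, decide_eq_true_eq]
          constructor
          · rintro (rfl | rfl)
            · exact absurd rfl hex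
            · rfl
          · intro h3
            exact Or.inr (hC _ _ hey h3)
        · have h3 : ¬ (e = x ∨ e = y) := by
            rintro (rfl | rfl)
            · exact hex rfl
            · exact hey rfl
          by_cases hee : ∃ e', A e' = A e ∧ B e' = B x
          · have h4 : decide (A e ≠ A x ∧ (A e = A y ∨ ∃ e', A e' = A e ∧ B e' = B x)) = true := by
              rw [decide_eq_true_eq]
              exact ⟨hex, Or.inr hee⟩
            simp only [h4, Bool.true_eq_false, ↓reduceIte, decide_eq_true_eq, h3, false_iff]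
            intro h5
            obtain ⟨e', he', hb'⟩ := hee
            exact h1 e' e he' (by rw [he']; exact hex) (by rw [he']; exact hey) hb' h5
          · have h4 : decide (A e ≠ A x ∧ (A e = A y ∨ ∃ e', A e' = A e ∧ B e' = B x)) = false := by
              rw [decide_eq_false_iff_not]
              rintro ⟨_, h5 | h5⟩
              · exact hey h5
              · exact hee h5
            simp only [h4, ↓reduceIte, decide_eq_true_eq, h3, false_iff]
            intro h5
            exact hee ⟨e, rfl, h5⟩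
    · -- x in C, y in B
      refine ⟨fun a => decide (a ≠ A y ∧ (a = A x ∨ ∃ e, A e = a ∧ B e = B y)),
        fun b => decide (b = B y), fun c => decide (c = C x), ?_⟩
      intro e
      by_cases hey : A e = A y
      · have hne : A e ≠ A x := fun h5 => hxy (h5.symm.trans hey)
        have h4 : decide (A e ≠ A y ∧ (A e = A x ∨ ∃ e', A e' = A e ∧ B e' = B y)) = false := by
          simp [hey]
        simp only [h4, ↓reduceIte, decide_eq_true_eq]
        constructor
        · rintro (rfl | rfl)
          · exact absurd rfl hne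
          · rfl
        · intro h3
          exact Or.inr (hB _ _ hey h3)
      · by_cases hex : A e = A x
        · have h4 : decide (A e ≠ A y ∧ (A e = A x ∨ ∃ e', A e' = A e ∧ B e' = B y)) = true := by
            rw [decide_eq_true_eq]
            exact ⟨hey, Or.inl hex⟩
          simp only [h4, Bool.true_eq_false, ↓reduceIte, decide_eq_true_eq]
          constructor
          · rintro (rfl | rfl)
            · rfl
            · exact absurd rfl hey
          · intro h3
            exact Or.inl (hC _ _ hex h3)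
        · have h3 : ¬ (e = x ∨ e = y) := by
            rintro (rfl | rfl)
            · exact hex rfl
            · exact hey rfl
          by_cases hee : ∃ e', A e' = A e ∧ B e' = B y
          · have h4 : decide (A e ≠ A y ∧ (A e = A x ∨ ∃ e', A e' = A e ∧ B e' = B y)) = true := by
              rw [decide_eq_true_eq]
              exact ⟨hey, Or.inr hee⟩
            simp only [h4, Bool.true_eq_false, ↓reduceIte, decide_eq_true_eq, h3, false_iff]
            intro h5
            obtain ⟨e', he', hb'⟩ := hee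
            exact h1 e e' he'.symm hex hey h5 hb'
          · have h4 : decide (A e ≠ A y ∧ (A e = A x ∨ ∃ e', A e' = A e ∧ B e' = B y)) = false := by
              rw [decide_eq_false_iff_not]
              rintro ⟨_, h5 | h5⟩
              · exact hex h5
              · exact hee h5
            simp only [h4, ↓reduceIte, decide_eq_true_eq, h3, false_iff]
            intro h5
            exact hee ⟨e, rfl, h5⟩
  intro S hS
  have hcases : S.card = 0 ∨ S.card = 1 ∨ S.card = 2 := by omega
  rcases hcases with h0 | h1 | h2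
  · rw [Finset.card_eq_zero] at h0
    subst h0
    exact ⟨fun _ => false, fun _ => false, fun _ => false, fun x => by simp⟩
  · rw [Finset.card_eq_one] at h1
    obtain ⟨x, rfl⟩ := h1
    obtain ⟨tA, tB, tC, ht⟩ := two x x
    refine ⟨tA, tB, tC, fun e => ?_⟩
    rw [← ht e]
    simp
  · rw [Finset.card_eq_two] at h2
    obtain ⟨x, y, _, rfl⟩ := h2
    obtain ⟨tA, tB, tC, ht⟩ := two x y
    refine ⟨tA, tB, tC, fun e => ?_⟩
    rw [← ht e]
    simp

/-! ### The construction -/

/-- Letters `0, 1, 3` in the integers modulo 8. -/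
def Ltr (v : ZMod 8) : Prop := v = 0 ∨ v = 1 ∨ v = 3

instance (v : ZMod 8) : Decidable (Ltr v) := by unfold Ltr; infer_instance

/-- The group of blocks. -/
abbrev G (k : ℕ) : Type := Fin k → ZMod 8

/-- Number of zero coordinates. -/
def zeros {k : ℕ} (u : G k) : ℕ := ∑ i, if u i = 0 then 1 else 0

/-- Words over the letters `0, 1, 3` with exactly `z` zeros. -/
def InD (k z : ℕ) (u : G k) : Prop := (∀ i, Ltr (u i)) ∧ zeros u = z

instance (k z : ℕ) : DecidablePred (InD k z) := fun u => by unfold InD; infer_instance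

def lett : Fin 3 → ZMod 8 := ![0, 1, 3]

theorem ltr_lett {v : ZMod 8} (h : Ltr v) : ∃ i, v = lett i := by
  rcases h with rfl | rfl | rfl
  · exact ⟨0, rfl⟩
  · exact ⟨1, rfl⟩
  · exact ⟨2, rfl⟩

theorem coord1' : ∀ p q u : Fin 3, lett p + lett q = lett u + lett u → lett p = lett u := by
  decide

theorem coord2' : ∀ u u' p q r t : Fin 3,
    lett p + lett u = lett q + lett u' → lett r + lett t + lett p = lett u + lett u' + lett u' →
    (if lett u = 0 then 1 else 0) + (if lett u' = 0 then 1 else 0) +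
      (if lett u' = lett p then 0 else 1) ≤
      ((if lett r = 0 then 1 else 0) + (if lett t = 0 then 1 else 0) : ℕ) := by
  decide

theorem coord1 {p q u : ZMod 8} (hp : Ltr p) (hq : Ltr q) (hu : Ltr u)
    (h : p + q = u + u) : p = u := by
  obtain ⟨i, rfl⟩ := ltr_lett hp
  obtain ⟨j, rfl⟩ := ltr_lett hq
  obtain ⟨l, rfl⟩ := ltr_lett hu
  exact coord1' i j l h

theorem coord2 {u u' p q r t : ZMod 8} (hu : Ltr u) (hu' : Ltr u') (hp : Ltr p) (hq : Ltr q)
    (hr : Ltr r) (ht : Ltr t) (h1 : p + u = q + u') (h2 : r + t + p = u + u' + u') :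
    (if u = 0 then 1 else 0) + (if u' = 0 then 1 else 0) + (if u' = p then 0 else 1) ≤
      ((if r = 0 then 1 else 0) + (if t = 0 then 1 else 0) : ℕ) := by
  obtain ⟨i1, rfl⟩ := ltr_lett hu
  obtain ⟨i2, rfl⟩ := ltr_lett hu'
  obtain ⟨i3, rfl⟩ := ltr_lett hp
  obtain ⟨i4, rfl⟩ := ltr_lett hq
  obtain ⟨i5, rfl⟩ := ltr_lett hr
  obtain ⟨i6, rfl⟩ := ltr_lett ht
  exact coord2' i1 i2 i3 i4 i5 i6 h1 h2

theorem word1 {k z : ℕ} {p q u : G k} (hp : InD k z p) (hq : InD k z q) (hu : InD k z u)
    (h : p + q = u + u) : p = u := by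
  funext i
  exact coord1 (hp.1 i) (hq.1 i) (hu.1 i) (congrFun h i)

theorem word2 {k z : ℕ} {u u' p q r t : G k} (hu : InD k z u) (hu' : InD k z u')
    (hp : InD k z p) (hq : InD k z q) (hr : InD k z r) (ht : InD k z t)
    (h1 : p + u = q + u') (h2 : r + t + p = u + u' + u') : u' = p := by
  have hsum : ∑ i, ((if u i = 0 then 1 else 0) + (if u' i = 0 then 1 else 0) +
      (if u' i = p i then 0 else 1)) ≤
      ∑ i, (((if r i = 0 then 1 else 0) + (if t i = 0 then 1 else 0) : ℕ)) := by
    apply Finset.sum_le_sum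
    intro i _
    exact coord2 (hu.1 i) (hu'.1 i) (hp.1 i) (hq.1 i) (hr.1 i) (ht.1 i) (congrFun h1 i)
      (congrFun h2 i)
  rw [Finset.sum_add_distrib, Finset.sum_add_distrib, Finset.sum_add_distrib] at hsum
  have e1 : ∑ i, (if u i = 0 then 1 else 0) = z := hu.2
  have e2 : ∑ i, (if u' i = 0 then 1 else 0) = z := hu'.2
  have e3 : ∑ i, (if r i = 0 then 1 else 0) = z := hr.2
  have e4 : ∑ i, (if t i = 0 then 1 else 0) = z := ht.2
  rw [e1, e2, e3, e4] at hsum
  have hz : ∑ i, (if u' i = p i then 0 else 1) = 0 := by omega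
  funext i
  have := (Finset.sum_eq_zero_iff.1 hz) i (Finset.mem_univ i)
  by_contra hne
  rw [if_neg hne] at this
  exact one_ne_zero this

/-- The scheme: elements are pairs (block, word); positions `a`, `a - u`, `a + u`. -/
theorem scheme_correct (k z : ℕ) :
    Correct (X := G k × {u : G k // InD k z u}) (α := G k) (β := G k) (γ := G k) 2
      (fun x => x.1) (fun x => x.1 - x.2.1) (fun x => x.1 + x.2.1) := by
  apply correct_two
  · rintro ⟨a, u, hu⟩ ⟨a', u', hu'⟩ h1 h2
    simp only at h1 h2
    subst h1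
    have : u = u' := sub_right_injective h2
    subst this
    rfl
  · rintro ⟨a, u, hu⟩ ⟨a', u', hu'⟩ h1 h2
    simp only at h1 h2
    subst h1
    have : u = u' := add_left_cancel h2
    subst this
    rfl
  · rintro ⟨a, u, hu⟩ ⟨a', u', hu'⟩ hne
    simp only at hne
    by_contra hcon
    push Not at hcon
    obtain ⟨hBB, hCC, hBC, hCB⟩ := hcon
    -- failure of BB
    have hP : (∃ p, InD k z p ∧ a - p = a' - u') ∨ (∃ p, InD k z p ∧ a' - p = a - u) := by
      by_cases h1 : ∀ e : G k × {u : G k // InD k z u}, e.1 = a → e.1 - e.2.1 = a' - u' →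
          e = (a, ⟨u, hu⟩)
      · right
        obtain ⟨⟨e1, e2, he2⟩, h2, h3, _⟩ := hBB h1
        simp only at h2 h3
        subst h2
        exact ⟨e2, he2, h3⟩
      · left
        push Not at h1
        obtain ⟨⟨e1, e2, he2⟩, h2, h3, _⟩ := h1
        simp only at h2 h3
        subst h2
        exact ⟨e2, he2, h3⟩
    have hQ : (∃ q, InD k z q ∧ a + q = a' + u') ∨ (∃ q, InD k z q ∧ a' + q = a + u) := by
      by_cases h1 : ∀ e : G k × {u : G k // InD k z u}, e.1 = a → e.1 + e.2.1 = a' + u' →
          e = (a, ⟨u, hu⟩)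
      · right
        obtain ⟨⟨e1, e2, he2⟩, h2, h3, _⟩ := hCC h1
        simp only at h2 h3
        subst h2
        exact ⟨e2, he2, h3⟩
      · left
        push Not at h1
        obtain ⟨⟨e1, e2, he2⟩, h2, h3, _⟩ := h1
        simp only at h2 h3
        subst h2
        exact ⟨e2, he2, h3⟩
    obtain ⟨⟨b1, r, hr⟩, ⟨b2, t, ht⟩, h1, -, -, h4, h5, -⟩ := hBC
    simp only at h1 h4 h5
    subst h1
    obtain ⟨⟨c1, t', ht'⟩, ⟨c2, r', hr'⟩, h6, -, -, h9, h10, -⟩ := hCB
    simp only at h6 h9 h10
    subst h6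
    rcases hP with ⟨p, hp, hp1⟩ | ⟨p, hp, hp1⟩
    · rcases hQ with ⟨q, hq, hq1⟩ | ⟨q, hq, hq1⟩
      · -- p + q = u' + u'
        have : p + q = u' + u' := by
          linear_combination hq1 - hp1
        have h7 := word1 hp hq hu' this
        rw [h7] at hp1
        exact hne (sub_left_injective hp1)
      · have h11 : p + u = q + u' := by
          linear_combination -hp1 - hq1
        have h12 : r + t + p = u + u' + u' := by
          linear_combination h5 - h4 - hp1
        have h7 := word2 hu hu' hp hq hr ht h11 h12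
        rw [← h7] at hp1
        exact hne (sub_left_injective hp1)
    · rcases hQ with ⟨q, hq, hq1⟩ | ⟨q, hq, hq1⟩
      · have h11 : p + u' = q + u := by
          linear_combination -hp1 - hq1
        have h12 : r' + t' + p = u' + u + u := by
          linear_combination h9 - h10 - hp1
        have h7 := word2 hu' hu hp hq hr' ht' h11 h12
        rw [← h7] at hp1
        exact hne (sub_left_injective hp1).symm
      · have : p + q = u + u := by
          linear_combination hq1 - hp1
        have h7 := word1 hp hq hu this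
        rw [h7] at hp1
        exact hne (sub_left_injective hp1).symm

/-! ### Counting -/

theorem zeros_lt {k : ℕ} (u : G k) : zeros u < k + 1 := by
  have : zeros u ≤ ∑ _i : Fin k, 1 := by
    apply Finset.sum_le_sum
    intro i _
    split_ifs <;> simp
  simp at this
  omega

theorem exists_z (k : ℕ) : ∃ z, 3 ^ k ≤ (k + 1) * Fintype.card {u : G k // InD k z u} := by
  classical
  by_contra hcon
  push Not at hcon
  let L : Finset (G k) := Fintype.piFinset (fun _ => ({0, 1, 3} : Finset (ZMod 8)))
  have hL : L.card = 3 ^ k := by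
    rw [Fintype.card_piFinset]
    have : ({0, 1, 3} : Finset (ZMod 8)).card = 3 := by decide
    simp [this]
  have hmem : ∀ u, u ∈ L ↔ ∀ i, Ltr (u i) := by
    intro u
    simp [L, Fintype.mem_piFinset, Ltr]
  have hfib : L.card = ∑ z ∈ Finset.range (k + 1), (L.filter (fun u => zeros u = z)).card := by
    apply Finset.card_eq_sum_card_fiberwise
    intro u _
    simp only [Finset.coe_range, Set.mem_Iio]
    exact zeros_lt u
  have hc : ∀ z, (L.filter (fun u => zeros u = z)).card = Fintype.card {u : G k // InD k z u} := by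
    intro z
    rw [Fintype.card_subtype]
    congr 1
    ext u
    rw [Finset.mem_filter, Finset.mem_filter, hmem]
    simp [InD]
  have h1 : ∑ z ∈ Finset.range (k + 1), (k + 1) * (L.filter (fun u => zeros u = z)).card <
      ∑ _z ∈ Finset.range (k + 1), 3 ^ k := by
    apply Finset.sum_lt_sum_of_nonempty
    · exact ⟨0, by simp⟩
    · intro z _
      rw [hc z]
      exact hcon z
  rw [← Finset.mul_sum, ← hfib, hL, Finset.sum_const, Finset.card_range, smul_eq_mul] at h1
  exact lt_irrefl _ h1

theorem hasScheme_pow (k m : ℕ) (h : (k + 1) * m ≤ 24 ^ k) : HasScheme 2 m (3 * 8 ^ k) := by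
  classical
  obtain ⟨z, hz⟩ := exists_z k
  have hcard : Fintype.card (G k × {u : G k // InD k z u}) =
      8 ^ k * Fintype.card {u : G k // InD k z u} := by
    rw [Fintype.card_prod]
    congr 1
    simp [G, ZMod.card]
  have hm : m ≤ Fintype.card (G k × {u : G k // InD k z u}) := by
    rw [hcard]
    have h1 : (k + 1) * m ≤ (k + 1) * (8 ^ k * Fintype.card {u : G k // InD k z u}) := by
      calc (k + 1) * m ≤ 24 ^ k := h
        _ = 8 ^ k * 3 ^ k := by rw [← mul_pow]; norm_num
        _ ≤ 8 ^ k * ((k + 1) * Fintype.card {u : G k // InD k z u}) := Nat.mul_le_mul_left _ hz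
        _ = (k + 1) * (8 ^ k * Fintype.card {u : G k // InD k z u}) := by ring
    exact Nat.le_of_mul_le_mul_left h1 (Nat.succ_pos k)
  have ht := transfer (scheme_correct k z)
    (fun i : Fin m => (Fintype.equivFin (G k × {u : G k // InD k z u})).symm (Fin.castLE hm i))
    ((Equiv.injective _).comp (Fin.castLE_injective hm))
  have hG : Fintype.card (G k) = 8 ^ k := by simp [G, ZMod.card]
  rw [hG] at ht
  have e : 8 ^ k + 8 ^ k + 8 ^ k = 3 * 8 ^ k := by ring
  rw [e] at ht
  exact ht

/-! ### Asymptotics -/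

theorem below_two_thirds (c : ℝ) (hc : 0 < c) (M : ℕ) :
    ∃ m ≥ M, ∃ s : ℕ, HasScheme 2 m s ∧ (s : ℝ) < c * (m : ℝ) ^ (2 / 3 : ℝ) := by
  have ht : Filter.Tendsto (fun k : ℕ => ((k : ℝ)) ^ 2 / (9 / 8 : ℝ) ^ k) Filter.atTop (nhds 0) :=
    tendsto_pow_const_div_const_pow_of_one_lt 2 (by norm_num)
  have ht2 : Filter.Tendsto (fun k : ℕ => ((k : ℝ)) ^ 1 / (24 : ℝ) ^ k) Filter.atTop (nhds 0) :=
    tendsto_pow_const_div_const_pow_of_one_lt 1 (by norm_num)
  have hε : 0 < c ^ 3 / 432 := by positivity
  have hε2 : 0 < 1 / (4 * ((M : ℝ) + 1)) := by positivity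
  have e1 := (ht.eventually (gt_mem_nhds hε))
  have e2 := (ht2.eventually (gt_mem_nhds hε2))
  obtain ⟨k, hk1, hk2, hk3⟩ := (e1.and (e2.and (Filter.eventually_ge_atTop 1))).exists
  have hk3' : (1 : ℝ) ≤ k := by exact_mod_cast hk3
  -- the universe size
  set m : ℕ := 24 ^ k / (k + 1) with hm
  have hmul : (k + 1) * m ≤ 24 ^ k := Nat.mul_div_le _ _
  have hkpos : (0 : ℝ) < (k : ℝ) + 1 := by positivity
  have hlow : (24 : ℝ) ^ k / (k + 1) < m + 1 := by
    have h1 : 24 ^ k < (k + 1) * (m + 1) := by
      have := Nat.lt_mul_div_succ (24 ^ k) (Nat.succ_pos k)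
      simpa [hm] using this
    rw [div_lt_iff₀ hkpos]
    have h2 : ((24 ^ k : ℕ) : ℝ) < (((k + 1) * (m + 1) : ℕ) : ℝ) := by exact_mod_cast h1
    push_cast at h2
    linarith [h2]
  have h24 : (0 : ℝ) < 24 ^ k := by positivity
  have hbig : 4 * ((M : ℝ) + 1) * k < 24 ^ k := by
    rw [pow_one] at hk2
    rw [div_lt_div_iff₀ h24 (by positivity)] at hk2
    linarith
  have hk2k : (k : ℝ) + 1 ≤ 2 * k := by linarith
  have hbig2 : 2 * ((M : ℝ) + 1) < 24 ^ k / (k + 1) := by
    rw [lt_div_iff₀ hkpos]
    have : 2 * ((M : ℝ) + 1) * (k + 1) ≤ 2 * ((M : ℝ) + 1) * (2 * k) :=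
      mul_le_mul_of_nonneg_left hk2k (by positivity)
    linarith
  have hM0 : (0 : ℝ) ≤ M := by positivity
  have hmM : (M : ℝ) ≤ m := by linarith
  have hhalf : (24 : ℝ) ^ k / (2 * (k + 1)) ≤ m := by
    have : (24 : ℝ) ^ k / (2 * (k + 1)) = (24 ^ k / (k + 1)) / 2 := by field_simp
    rw [this]
    linarith
  refine ⟨m, by exact_mod_cast hmM, 3 * 8 ^ k, hasScheme_pow k m hmul, ?_⟩
  have hm0 : (0 : ℝ) ≤ m := by positivity
  apply lt_of_pow_lt_pow_left₀ 3 (by positivity)
  have hr : (c * (m : ℝ) ^ (2 / 3 : ℝ)) ^ 3 = c ^ 3 * (m : ℝ) ^ 2 := by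
    rw [mul_pow, ← Real.rpow_natCast ((m : ℝ) ^ (2 / 3 : ℝ)), ← Real.rpow_mul hm0,
      ← Real.rpow_natCast (m : ℝ) 2]
    norm_num
  rw [hr]
  have hsq : ((24 : ℝ) ^ k / (2 * (k + 1))) ^ 2 ≤ (m : ℝ) ^ 2 :=
    pow_le_pow_left₀ (by positivity) hhalf 2
  have hlhs : (((3 * 8 ^ k : ℕ) : ℝ)) ^ 3 = 27 * 512 ^ k := by
    push_cast
    rw [mul_pow, ← pow_mul, mul_comm k 3, pow_mul]
    norm_num
  rw [hlhs]
  have hkey : 27 * (512 : ℝ) ^ k < c ^ 3 * ((24 : ℝ) ^ k / (2 * (k + 1))) ^ 2 := by
    have h9 : (0 : ℝ) < (9 / 8 : ℝ) ^ k := by positivity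
    rw [div_lt_iff₀ h9] at hk1
    have h576 : ((24 : ℝ) ^ k) ^ 2 = 512 ^ k * (9 / 8) ^ k := by
      rw [← pow_mul, mul_comm k 2, pow_mul, ← mul_pow]
      norm_num
    rw [div_pow, h576]
    have h512 : (0 : ℝ) < 512 ^ k := by positivity
    have h3 : c ^ 3 * (512 ^ k * (9 / 8 : ℝ) ^ k / (2 * (k + 1)) ^ 2) =
        (c ^ 3 * (9 / 8 : ℝ) ^ k / (2 * (k + 1)) ^ 2) * 512 ^ k := by ring
    rw [h3]
    apply mul_lt_mul_of_pos_right _ h512
    rw [lt_div_iff₀ (by positivity)]
    have h4 : (2 * ((k : ℝ) + 1)) ^ 2 ≤ (4 * (k : ℝ)) ^ 2 :=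
      pow_le_pow_left₀ (by positivity) (by linarith) 2
    nlinarith
  calc 27 * (512 : ℝ) ^ k < c ^ 3 * ((24 : ℝ) ^ k / (2 * (k + 1))) ^ 2 := hkey
    _ ≤ c ^ 3 * (m : ℝ) ^ 2 := mul_le_mul_of_nonneg_left hsq (by positivity)

theorem power_bound (α : ℝ) (hα : Real.log 8 / Real.log 24 < α) :
    ∃ K : ℝ, ∀ m : ℕ, 1 ≤ m → (minSpace 2 m : ℝ) ≤ K * (m : ℝ) ^ α := by
  have hl8 : 0 < Real.log 8 := Real.log_pos (by norm_num)
  have hl24 : 0 < Real.log 24 := Real.log_pos (by norm_num)
  have hα0 : 0 < α := lt_trans (div_pos hl8 hl24) hα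
  set lam : ℝ := (8 : ℝ) ^ (1 / α) with hlam
  have hlam0 : 0 < lam := Real.rpow_pos_of_pos (by norm_num) _
  have hlam1 : 1 < lam := Real.one_lt_rpow (by norm_num) (by positivity)
  have hlam24 : lam < 24 := by
    rw [← Real.log_lt_log_iff hlam0 (by norm_num), hlam, Real.log_rpow (by norm_num)]
    rw [div_lt_iff₀ hl24] at hα
    rw [one_div, inv_mul_lt_iff₀ hα0]
    linarith
  have hq : ∀ n : ℕ, (lam ^ n) ^ α = 8 ^ n := by
    intro n
    rw [← Real.rpow_natCast lam n, ← Real.rpow_mul hlam0.le, hlam, ← Real.rpow_mul (by norm_num),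
      ← Real.rpow_natCast 8 n]
    congr 1
    field_simp
  -- boundedness of (k+1) (lam/24)^k
  have ht : Filter.Tendsto (fun k : ℕ => ((k : ℝ)) ^ 1 / (24 / lam : ℝ) ^ k) Filter.atTop (nhds 0) :=
    tendsto_pow_const_div_const_pow_of_one_lt 1 (by rw [one_lt_div hlam0]; exact hlam24)
  obtain ⟨C1, hC1⟩ := ht.bddAbove_range
  have hC1' : ∀ k : ℕ, (k : ℝ) / (24 / lam) ^ k ≤ C1 := by
    intro k
    have := hC1 ⟨k, rfl⟩
    simpa using this
  have hC10 : 0 ≤ C1 := by simpa using hC1' 0
  set C0 : ℝ := C1 + 1 with hC0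
  have hC01 : 1 ≤ C0 := by linarith
  have hC0b : ∀ k : ℕ, ((k : ℝ) + 1) * lam ^ k ≤ C0 * 24 ^ k := by
    intro k
    have h1 := hC1' k
    have h2 : (0 : ℝ) < (24 / lam) ^ k := by positivity
    rw [div_le_iff₀ h2, div_pow] at h1
    have h3 : lam ^ k ≤ 24 ^ k := pow_le_pow_left₀ hlam0.le hlam24.le k
    have h4 : (0 : ℝ) < lam ^ k := by positivity
    have h5 : (k : ℝ) * lam ^ k ≤ C1 * 24 ^ k := by
      calc (k : ℝ) * lam ^ k ≤ (C1 * (24 ^ k / lam ^ k)) * lam ^ k :=
            mul_le_mul_of_nonneg_right h1 h4.le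
        _ = C1 * 24 ^ k := by field_simp
    calc ((k : ℝ) + 1) * lam ^ k = k * lam ^ k + lam ^ k := by ring
      _ ≤ C1 * 24 ^ k + 24 ^ k := by linarith
      _ = C0 * 24 ^ k := by rw [hC0]; ring
  refine ⟨24 * C0 ^ α, ?_⟩
  intro m hm
  have hm1 : (1 : ℝ) ≤ m := by exact_mod_cast hm
  have hex : ∃ k : ℕ, C0 * m ≤ lam ^ k := by
    obtain ⟨k, hk⟩ := pow_unbounded_of_one_lt (C0 * m) hlam1
    exact ⟨k, hk.le⟩
  classical
  set k := Nat.find hex with hk
  have hk1 : C0 * m ≤ lam ^ k := Nat.find_spec hex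
  have hsch : HasScheme 2 m (3 * 8 ^ k) := by
    apply hasScheme_pow
    have h1 : ((k : ℝ) + 1) * m ≤ 24 ^ k := by
      have h2 : ((k : ℝ) + 1) * (C0 * m) ≤ C0 * 24 ^ k :=
        (mul_le_mul_of_nonneg_left hk1 (by positivity)).trans (hC0b k)
      have h3 : C0 * (((k : ℝ) + 1) * m) ≤ C0 * 24 ^ k := by
        calc C0 * (((k : ℝ) + 1) * m) = ((k : ℝ) + 1) * (C0 * m) := by ring
          _ ≤ _ := h2
      exact le_of_mul_le_mul_left h3 (by linarith)
    exact_mod_cast h1
  have hle : (minSpace 2 m : ℝ) ≤ 3 * 8 ^ k := by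
    have : minSpace 2 m ≤ 3 * 8 ^ k := Nat.sInf_le hsch
    exact_mod_cast this
  refine hle.trans ?_
  have hmα : (1 : ℝ) ≤ (m : ℝ) ^ α := Real.one_le_rpow hm1 hα0.le
  have hCα : (1 : ℝ) ≤ C0 ^ α := Real.one_le_rpow hC01 hα0.le
  rcases Nat.eq_zero_or_pos k with h0 | hpos
  · rw [h0, pow_zero, mul_one]
    have : (1 : ℝ) ≤ C0 ^ α * (m : ℝ) ^ α := one_le_mul_of_one_le_of_one_le hCα hmα
    nlinarith
  · have hmin : ¬ (C0 * m ≤ lam ^ (k - 1)) := Nat.find_min hex (by omega)
    push Not at hmin
    have h1 : (8 : ℝ) ^ (k - 1) ≤ (C0 * m) ^ α := by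
      rw [← hq (k - 1)]
      exact Real.rpow_le_rpow (by positivity) hmin.le hα0.le
    have h2 : (8 : ℝ) ^ k = 8 * 8 ^ (k - 1) := by
      rw [← pow_succ']
      congr 1
      omega
    rw [h2]
    rw [Real.mul_rpow (by linarith) (by linarith)] at h1
    linarith

/-- The space of adaptive two-probe schemes for sets of size at most two is not
`Omega(m^(2/3))`; it is at most `m` to the power `log 8 / log 24 + o(1) = 0.6543...`. -/
theorem result :
    (∀ c : ℝ, 0 < c → ∀ M : ℕ, ∃ m ≥ M, ∃ s : ℕ,
      HasScheme 2 m s ∧ (s : ℝ) < c * (m : ℝ) ^ (2 / 3 : ℝ)) ∧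
    (¬ ∃ c : ℝ, 0 < c ∧ ∃ M : ℕ, ∀ m ≥ M, c * (m : ℝ) ^ (2 / 3 : ℝ) ≤ (minSpace 2 m : ℝ)) ∧
    (∀ α : ℝ, Real.log 8 / Real.log 24 < α →
      ∃ K : ℝ, ∀ m : ℕ, 1 ≤ m → (minSpace 2 m : ℝ) ≤ K * (m : ℝ) ^ α) ∧
    Real.log 8 / Real.log 24 < 2 / 3 := by
  refine ⟨below_two_thirds, ?_, power_bound, ?_⟩
  · rintro ⟨c, hc, M, hM⟩
    obtain ⟨m, hm, s, hs, hlt⟩ := below_two_thirds c hc M
    have h1 := hM m hm
    have h2 : (minSpace 2 m : ℝ) ≤ s := by
      have : minSpace 2 m ≤ s := Nat.sInf_le hs
      exact_mod_cast this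
    linarith
  · rw [div_lt_div_iff₀ (Real.log_pos (by norm_num)) (by norm_num)]
    have h1 : Real.log 8 * 3 = Real.log (8 ^ 3) := by rw [Real.log_pow]; push_cast; ring
    have h2 : 2 * Real.log 24 = Real.log (24 ^ 2) := by rw [Real.log_pow]; push_cast; ring
    rw [h1, h2]
    apply Real.log_lt_log (by norm_num)
    norm_num

end Pool.Agent.Results.MP_b7335c_lc.TwoProbePowerSaving
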